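import Mathlib
import Pool.Graph.R_seed8.R248.Ritt.Main

/-!
The convolution algebra of finitely supported functions on an abelian group with its `ℓ¹` norm, the
uniform measures on boxes and the bound for mixtures of them.
-/

set_option autoImplicit false

namespace Pool.Agent.KS6_57.RT

open Finset
open Pool.Agent.R248.Ritt (A U N1 term T)

section Norm

variable {G : Type} [AddCommGroup G]

omit [AddCommGroup G] in
lemma summ (f : AddMonoidAlgebra ℝ G) : Summable fun k => |f.coeff k| :=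
  summable_of_ne_finset_zero (s := f.coeff.support) fun _ hk => by
    rw [Finsupp.notMem_support_iff.1 hk, abs_zero]

/-- The `ℓ¹` norm. -/
noncomputable def NN (f : AddMonoidAlgebra ℝ G) : ℝ := ∑' k, |f.coeff k|

omit [AddCommGroup G] in
lemma NN_nonneg (f : AddMonoidAlgebra ℝ G) : 0 ≤ NN f := tsum_nonneg fun _ => abs_nonneg _

lemma NN_zero : NN (0 : AddMonoidAlgebra ℝ G) = 0 := by simp [NN]

lemma NN_add_le (f g : AddMonoidAlgebra ℝ G) : NN (f + g) ≤ NN f + NN g := by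
  unfold NN
  rw [← (summ f).tsum_add (summ g)]
  exact (summ _).tsum_le_tsum (fun k => by
    rw [AddMonoidAlgebra.coeff_add]; exact abs_add_le _ _) ((summ f).add (summ g))

lemma NN_sum_le {ι : Type*} (s : Finset ι) (f : ι → AddMonoidAlgebra ℝ G) :
    NN (∑ i ∈ s, f i) ≤ ∑ i ∈ s, NN (f i) := by
  classical
  induction s using Finset.induction_on with
  | empty => simp [NN_zero]
  | insert a s ha ih =>
    rw [sum_insert ha, sum_insert ha]
    exact (NN_add_le _ _).trans (by linarith)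

lemma NN_smul (c : ℝ) (f : AddMonoidAlgebra ℝ G) : NN (c • f) = |c| * NN f := by
  unfold NN
  rw [← tsum_mul_left]
  congr 1
  ext k
  rw [AddMonoidAlgebra.coeff_smul_apply, smul_eq_mul, abs_mul]

lemma NN_single_mul (k : G) (a : ℝ) (f : AddMonoidAlgebra ℝ G) :
    NN (AddMonoidAlgebra.single k a * f) = |a| * NN f := by
  unfold NN
  rw [← tsum_mul_left, ← (Equiv.addLeft k).tsum_eq]
  congr 1
  ext j
  rw [AddMonoidAlgebra.coeff_single_mul_apply, abs_mul]
  simp

lemma NN_mul_le (f g : AddMonoidAlgebra ℝ G) : NN (f * g) ≤ NN f * NN g := by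
  have h : f * g = ∑ k ∈ f.coeff.support, AddMonoidAlgebra.single k (f.coeff k) * g := by
    conv_lhs => rw [← AddMonoidAlgebra.sum_coeff_single f]
    rw [Finsupp.sum, Finset.sum_mul]
  rw [h]
  refine (NN_sum_le _ _).trans ?_
  simp only [NN_single_mul]
  rw [← Finset.sum_mul]
  refine mul_le_mul_of_nonneg_right ?_ (NN_nonneg g)
  exact (summ f).sum_le_tsum _ fun _ _ => abs_nonneg _

lemma NN_one : NN (1 : AddMonoidAlgebra ℝ G) = 1 := by
  classical
  unfold NN
  rw [tsum_eq_single 0]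
  · rw [AddMonoidAlgebra.one_def]; simp
  · intro j hj
    rw [AddMonoidAlgebra.one_def, AddMonoidAlgebra.coeff_single, Finsupp.single_apply,
      if_neg hj.symm, abs_zero]

lemma NN_single (k : G) (a : ℝ) : NN (AddMonoidAlgebra.single k a) = |a| := by
  have h := NN_single_mul k a 1
  rw [mul_one, NN_one, mul_one] at h
  exact h

lemma NN_sub_le (f g : AddMonoidAlgebra ℝ G) : NN (f - g) ≤ NN f + NN g := by
  have h : f - g = f + (-1 : ℝ) • g := by
    rw [neg_one_smul, sub_eq_add_neg]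
  rw [h]
  refine (NN_add_le _ _).trans ?_
  rw [NN_smul, abs_neg, abs_one, one_mul]

lemma NN_pow_le (f : AddMonoidAlgebra ℝ G) (n : ℕ) : NN (f ^ n) ≤ NN f ^ n := by
  induction n with
  | zero => rw [pow_zero, pow_zero, NN_one]
  | succ n ih =>
    rw [pow_succ, pow_succ]
    exact (NN_mul_le _ _).trans (mul_le_mul_of_nonneg_right ih (NN_nonneg _))

lemma NN_prod_le {ι : Type*} (s : Finset ι) (f : ι → AddMonoidAlgebra ℝ G)
    (h : ∀ i ∈ s, NN (f i) ≤ 1) : NN (∏ i ∈ s, f i) ≤ 1 := by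
  classical
  induction s using Finset.induction_on with
  | empty => rw [prod_empty, NN_one]
  | insert a s ha ih =>
    rw [prod_insert ha]
    have h1 := h a (mem_insert_self _ _)
    have h2 := ih fun i hi => h i (mem_insert_of_mem hi)
    calc _ ≤ NN (f a) * NN (∏ i ∈ s, f i) := NN_mul_le _ _
      _ ≤ 1 * 1 := mul_le_mul h1 h2 (NN_nonneg _) zero_le_one
      _ = 1 := one_mul 1

/-- a contraction on the unit masses is a contraction -/
lemma NN_hom_le (Ψ : A →ₐ[ℝ] AddMonoidAlgebra ℝ G) (h : ∀ k, NN (Ψ (AddMonoidAlgebra.single k 1)) ≤ 1)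
    (f : A) : NN (Ψ f) ≤ N1 f := by
  have e : Ψ f = ∑ k ∈ f.coeff.support, f.coeff k • Ψ (AddMonoidAlgebra.single k 1) := by
    conv_lhs => rw [← AddMonoidAlgebra.sum_coeff_single f]
    rw [Finsupp.sum, map_sum]
    refine sum_congr rfl fun k _ => ?_
    rw [← map_smul]
    congr 1
    rw [AddMonoidAlgebra.smul_single, smul_eq_mul, mul_one]
  rw [e]
  refine (NN_sum_le _ _).trans ?_
  refine le_trans (sum_le_sum (g := fun k => |f.coeff k|) fun k _ => ?_) ?_
  · rw [NN_smul]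
    have := mul_le_mul_of_nonneg_left (h k) (abs_nonneg (f.coeff k))
    linarith
  · exact (Pool.Agent.R248.Ritt.summ f).sum_le_tsum _ fun _ _ => abs_nonneg _

/-- the norm of the image in a normed algebra -/
lemma norm_lift_le {𝔸 : Type*} [NormedRing 𝔸] [NormedAlgebra ℝ 𝔸] (π : Multiplicative G →* 𝔸) (K : ℝ)
    (hπ : ∀ k, ‖π k‖ ≤ K) (f : AddMonoidAlgebra ℝ G) :
    ‖AddMonoidAlgebra.lift ℝ 𝔸 G π f‖ ≤ K * NN f := by
  have e : AddMonoidAlgebra.lift ℝ 𝔸 G π f =
      ∑ k ∈ f.coeff.support, f.coeff k • π (Multiplicative.ofAdd k) := by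
    conv_lhs => rw [← AddMonoidAlgebra.sum_coeff_single f]
    rw [Finsupp.sum, map_sum]
    refine sum_congr rfl fun k _ => ?_
    rw [AddMonoidAlgebra.lift_single]
  rw [e]
  refine (norm_sum_le _ _).trans ?_
  have h1 : ∀ k ∈ f.coeff.support, ‖f.coeff k • π (Multiplicative.ofAdd k)‖ ≤ K * |f.coeff k| := by
    intro k _
    rw [norm_smul, Real.norm_eq_abs, mul_comm]
    exact mul_le_mul_of_nonneg_right (hπ _) (abs_nonneg _)
  refine (sum_le_sum h1).trans ?_
  rw [← Finset.mul_sum]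
  have hK : 0 ≤ K := (norm_nonneg _).trans (hπ 1)
  exact mul_le_mul_of_nonneg_left ((summ f).sum_le_tsum _ fun _ _ => abs_nonneg _) hK

end Norm

variable {d : ℕ}

/-- the embedding of the algebra of `ℤ` as the `a`-th coordinate -/
noncomputable def iota (a : Fin d) : A →ₐ[ℝ] AddMonoidAlgebra ℝ (Fin d → ℤ) :=
  AddMonoidAlgebra.lift ℝ (AddMonoidAlgebra ℝ (Fin d → ℤ)) ℤ
    ((AddMonoidAlgebra.of ℝ (Fin d → ℤ)).comp
      (AddMonoidHom.toMultiplicative (AddMonoidHom.single (fun _ : Fin d => ℤ) a)))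

lemma iota_single (a : Fin d) (k : ℤ) (x : ℝ) : iota a (AddMonoidAlgebra.single k x) =
    AddMonoidAlgebra.single (Pi.single a k) x := by
  unfold iota
  rw [AddMonoidAlgebra.lift_single]
  simp

lemma NN_iota_le (a : Fin d) (f : A) : NN (iota a f) ≤ N1 f := by
  apply NN_hom_le
  intro k
  rw [iota_single, NN_single, abs_one]

/-- the uniform probability on the box `{k : |k a| ≤ r a}` -/
noncomputable def Bx (r : Fin d → ℕ) : AddMonoidAlgebra ℝ (Fin d → ℤ) := ∏ a, iota a (U (r a))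

lemma NN_U_le (a : Fin d) (r : ℕ) : NN (iota a (U r)) ≤ 1 :=
  (NN_iota_le a _).trans (Pool.Agent.R248.Ritt.N1_U_le r)

lemma NN_Bx_le (r : Fin d → ℕ) : NN (Bx r) ≤ 1 := NN_prod_le _ _ fun a _ => NN_U_le a (r a)

/-- one term of the sum -/
lemma term_le {n : ℕ} (x : Fin (n + 1) → Fin d → ℕ) (i : Fin (n + 1)) :
    NN ((1 - Bx (x i)) * ∏ l ∈ univ.erase i, Bx (x l)) ≤
      ∑ a, N1 (term univ (fun l => x l a) i) := by
  have h1 : (1 : AddMonoidAlgebra ℝ (Fin d → ℤ)) - Bx (x i) =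
      ∑ a, (1 - iota a (U (x i a))) * ∏ b ∈ univ.filter (· < a), iota b (U (x i b)) := by
    have h := Finset.prod_one_sub_ordered (univ : Finset (Fin d))
      (fun a => 1 - iota a (U (x i a)))
    simp only [sub_sub_cancel] at h
    unfold Bx
    rw [h]
    ring
  have h2 : ∏ l ∈ univ.erase i, Bx (x l) =
      ∏ a, ∏ l ∈ univ.erase i, iota a (U (x l a)) := by
    unfold Bx
    rw [prod_comm]
  rw [h1, Finset.sum_mul]
  refine (NN_sum_le _ _).trans (sum_le_sum fun a _ => ?_)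
  rw [h2, ← mul_prod_erase univ _ (mem_univ a)]
  have h3 : ((1 - iota a (U (x i a))) * ∏ b ∈ univ.filter (· < a), iota b (U (x i b))) *
      ((∏ l ∈ univ.erase i, iota a (U (x l a))) *
        ∏ b ∈ univ.erase a, ∏ l ∈ univ.erase i, iota b (U (x l b))) =
      iota a (term univ (fun l => x l a) i) *
        ((∏ b ∈ univ.filter (· < a), iota b (U (x i b))) *
        ∏ b ∈ univ.erase a, ∏ l ∈ univ.erase i, iota b (U (x l b))) := by
    unfold Pool.Agent.R248.Ritt.term
    rw [map_mul, map_sub, map_one, map_prod]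
    ring
  rw [h3]
  have h4 : NN ((∏ b ∈ univ.filter (· < a), iota b (U (x i b))) *
        ∏ b ∈ univ.erase a, ∏ l ∈ univ.erase i, iota b (U (x l b))) ≤ 1 := by
    refine (NN_mul_le _ _).trans ?_
    have h5 : NN (∏ b ∈ univ.filter (· < a), iota b (U (x i b))) ≤ 1 :=
      NN_prod_le _ _ fun b _ => NN_U_le b _
    have h6 : NN (∏ b ∈ univ.erase a, ∏ l ∈ univ.erase i, iota b (U (x l b))) ≤ 1 :=
      NN_prod_le _ _ fun b _ => NN_prod_le _ _ fun l _ => NN_U_le b _
    calc _ ≤ (1 : ℝ) * 1 := mul_le_mul h5 h6 (NN_nonneg _) zero_le_one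
      _ = 1 := one_mul 1
  refine (NN_mul_le _ _).trans ?_
  calc _ ≤ N1 (term univ (fun l => x l a) i) * 1 :=
        mul_le_mul (NN_iota_le a _) h4 (NN_nonneg _) (Pool.Agent.R248.Ritt.N1_nonneg _)
    _ = _ := mul_one _

/-- The deterministic bound. -/
lemma sum_term_le {n : ℕ} (hn : 1 ≤ n) (x : Fin (n + 1) → Fin d → ℕ) :
    ∑ i, NN ((1 - Bx (x i)) * ∏ l ∈ univ.erase i, Bx (x l)) ≤ 34 * d := by
  refine (sum_le_sum fun i _ => term_le x i).trans ?_
  rw [sum_comm]
  have h : ∀ a ∈ (univ : Finset (Fin d)), ∑ i, N1 (term univ (fun l => x l a) i) ≤ 34 := by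
    intro a _
    apply Pool.Agent.R248.Ritt.sum_term_le
    rw [card_univ, Fintype.card_fin]
    omega
  refine (sum_le_sum h).trans ?_
  rw [sum_const, card_univ, Fintype.card_fin, nsmul_eq_mul, mul_comm]

/-- The bound for finite mixtures of uniform measures on boxes. -/
theorem mixture_bound {ι : Type*} (r : ι → Fin d → ℕ) (p : ι → ℝ) (hp : ∀ j, 0 ≤ p j)
    (R : Finset ι) (n : ℕ) (hn : 1 ≤ n) :
    (n + 1) * NN (((∑ j ∈ R, p j) • (1 : AddMonoidAlgebra ℝ (Fin d → ℤ)) - ∑ j ∈ R, p j • Bx (r j)) *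
      (∑ j ∈ R, p j • Bx (r j)) ^ n) ≤ 34 * d * (∑ j ∈ R, p j) ^ (n + 1) := by
  classical
  set s := ∑ j ∈ R, p j with hs
  set m := ∑ j ∈ R, p j • Bx (r j) with hm
  have key : ∀ i : Fin (n + 1), NN ((s • (1 : AddMonoidAlgebra ℝ (Fin d → ℤ)) - m) * m ^ n) ≤
      ∑ x ∈ Fintype.piFinset (fun _ : Fin (n + 1) => R),
        (∏ l, p (x l)) * NN ((1 - Bx (r (x i))) * ∏ l ∈ univ.erase i, Bx (r (x l))) := by
    intro i
    have h1 : (s • (1 : AddMonoidAlgebra ℝ (Fin d → ℤ)) - m) * m ^ n =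
        ∏ l : Fin (n + 1), ∑ j ∈ R, p j • (if l = i then 1 - Bx (r j) else Bx (r j)) := by
      rw [← mul_prod_erase univ _ (mem_univ i)]
      congr 1
      · simp only [if_true]
        rw [hs, hm, Finset.sum_smul, ← sum_sub_distrib]
        exact sum_congr rfl fun j _ => by rw [smul_sub]
      · have : ∀ l ∈ univ.erase i,
            (∑ j ∈ R, p j • (if l = i then 1 - Bx (r j) else Bx (r j))) = m := by
          intro l hl
          rw [hm]
          exact sum_congr rfl fun j _ => by rw [if_neg (mem_erase.1 hl).1]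
        rw [prod_congr rfl this, prod_const, card_erase_of_mem (mem_univ i)]
        simp
    rw [h1, prod_univ_sum]
    refine (NN_sum_le _ _).trans (sum_le_sum fun x _ => ?_)
    have h2 : ∏ l, (p (x l) • (if l = i then 1 - Bx (r (x l)) else Bx (r (x l))) :
        AddMonoidAlgebra ℝ (Fin d → ℤ)) =
        (∏ l, p (x l)) • ((1 - Bx (r (x i))) * ∏ l ∈ univ.erase i, Bx (r (x l))) := by
      simp only [Algebra.smul_def]
      rw [prod_mul_distrib, ← map_prod]
      congr 1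
      rw [← mul_prod_erase univ _ (mem_univ i), if_pos rfl]
      congr 1
      exact prod_congr rfl fun l hl => by rw [if_neg (mem_erase.1 hl).1]
    rw [h2, NN_smul, abs_of_nonneg (prod_nonneg fun l _ => hp _)]
  have h3 : ((n : ℝ) + 1) * NN ((s • (1 : AddMonoidAlgebra ℝ (Fin d → ℤ)) - m) * m ^ n) =
      ∑ _i : Fin (n + 1), NN ((s • (1 : AddMonoidAlgebra ℝ (Fin d → ℤ)) - m) * m ^ n) := by
    rw [sum_const, card_univ, Fintype.card_fin, nsmul_eq_mul]
    push_cast
    rfl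
  rw [h3]
  refine (sum_le_sum fun i _ => key i).trans ?_
  rw [sum_comm]
  have h4 : ∀ x ∈ Fintype.piFinset (fun _ : Fin (n + 1) => R),
      ∑ i, (∏ l, p (x l)) * NN ((1 - Bx (r (x i))) * ∏ l ∈ univ.erase i, Bx (r (x l))) ≤
        34 * d * ∏ l, p (x l) := by
    intro x _
    rw [← Finset.mul_sum, mul_comm (34 * (d : ℝ))]
    exact mul_le_mul_of_nonneg_left (sum_term_le hn fun l => r (x l))
      (prod_nonneg fun l _ => hp _)
  refine (sum_le_sum h4).trans (le_of_eq ?_)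
  rw [← Finset.mul_sum, ← prod_univ_sum (fun _ : Fin (n + 1) => R) (fun _ j => p j)]
  simp [hs]

/-- all orders -/
theorem mixture_order {ι : Type*} (r : ι → Fin d → ℕ) (p : ι → ℝ) (hp : ∀ j, 0 ≤ p j)
    (R : Finset ι) (hR : ∑ j ∈ R, p j ≤ 1) (hd : 1 ≤ d) (n j : ℕ) (hj : 1 ≤ j) :
    (n : ℝ) ^ j * NN (((∑ i ∈ R, p i) • (1 : AddMonoidAlgebra ℝ (Fin d → ℤ)) -
      ∑ i ∈ R, p i • Bx (r i)) ^ j * (∑ i ∈ R, p i • Bx (r i)) ^ n) ≤ (34 * d * j) ^ j := by
  set s := ∑ j ∈ R, p j with hs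
  set m := ∑ j ∈ R, p j • Bx (r j) with hm
  have hs0 : 0 ≤ s := sum_nonneg fun i _ => hp i
  have hd' : (1 : ℝ) ≤ d := by exact_mod_cast hd
  have hj' : (1 : ℝ) ≤ j := by exact_mod_cast hj
  have hmN : NN m ≤ 1 := by
    refine (NN_sum_le _ _).trans (le_trans (sum_le_sum (g := p) fun i _ => ?_) hR)
    rw [NN_smul, abs_of_nonneg (hp i)]
    have := mul_le_mul_of_nonneg_left (NN_Bx_le (r i)) (hp i)
    linarith
  set q := n / j with hq
  set t := n % j with ht
  have hnq : n = q * j + t := by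
    rw [hq, ht, mul_comm]
    exact (Nat.div_add_mod n j).symm
  have hbase : (q + 1 : ℝ) * NN ((s • (1 : AddMonoidAlgebra ℝ (Fin d → ℤ)) - m) * m ^ q) ≤ 34 * d := by
    rcases Nat.eq_zero_or_pos q with h0 | h0
    · rw [h0, pow_zero, mul_one]
      have h1 : NN (s • (1 : AddMonoidAlgebra ℝ (Fin d → ℤ)) - m) ≤ 2 := by
        refine (NN_sub_le _ _).trans ?_
        rw [NN_smul, NN_one, abs_of_nonneg hs0]
        linarith
      push_cast
      linarith
    · refine (mixture_bound r p hp R q h0).trans ?_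
      have h1 : s ^ (q + 1) ≤ 1 := pow_le_one₀ hs0 hR
      have h2 : (0 : ℝ) ≤ 34 * d := by positivity
      nlinarith
  have e : (s • (1 : AddMonoidAlgebra ℝ (Fin d → ℤ)) - m) ^ j * m ^ n =
      ((s • (1 : AddMonoidAlgebra ℝ (Fin d → ℤ)) - m) * m ^ q) ^ j * m ^ t := by
    rw [hnq, pow_add, pow_mul, mul_pow]
    ring
  have h5 : NN ((s • (1 : AddMonoidAlgebra ℝ (Fin d → ℤ)) - m) ^ j * m ^ n) ≤
      NN ((s • (1 : AddMonoidAlgebra ℝ (Fin d → ℤ)) - m) * m ^ q) ^ j := by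
    rw [e]
    refine (NN_mul_le _ _).trans ?_
    have h6 := NN_pow_le ((s • (1 : AddMonoidAlgebra ℝ (Fin d → ℤ)) - m) * m ^ q) j
    have h7 : NN (m ^ t) ≤ 1 := (NN_pow_le m t).trans (pow_le_one₀ (NN_nonneg _) hmN)
    calc _ ≤ NN ((s • (1 : AddMonoidAlgebra ℝ (Fin d → ℤ)) - m) * m ^ q) ^ j * 1 :=
          mul_le_mul h6 h7 (NN_nonneg _) (pow_nonneg (NN_nonneg _) _)
      _ = _ := mul_one _
  have h8 : (n : ℝ) ≤ j * (q + 1) := by
    have h9 : t < j := Nat.mod_lt _ hj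
    have h10 : n ≤ j * (q + 1) := by
      rw [hnq]
      nlinarith
    exact_mod_cast h10
  calc (n : ℝ) ^ j * NN ((s • (1 : AddMonoidAlgebra ℝ (Fin d → ℤ)) - m) ^ j * m ^ n)
      ≤ (j * (q + 1)) ^ j * NN ((s • (1 : AddMonoidAlgebra ℝ (Fin d → ℤ)) - m) * m ^ q) ^ j :=
        mul_le_mul (pow_le_pow_left₀ (Nat.cast_nonneg _) h8 j) h5 (NN_nonneg _) (by positivity)
    _ = (j * ((q + 1) * NN ((s • (1 : AddMonoidAlgebra ℝ (Fin d → ℤ)) - m) * m ^ q))) ^ j := by
        rw [← mul_pow]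
        congr 1
        ring
    _ ≤ (34 * d * j) ^ j := by
        apply pow_le_pow_left₀
        · have := NN_nonneg ((s • (1 : AddMonoidAlgebra ℝ (Fin d → ℤ)) - m) * m ^ q)
          positivity
        · nlinarith

end Pool.Agent.KS6_57.RT
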