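import Mathlib
import Pool.Agent.KS6_57.RT.Alg

/-! Mixtures of averages over boxes in a Banach algebra. -/

set_option autoImplicit false

namespace Pool.Agent.KS6_57.RT

open Finset Filter Topology
open Pool.Agent.R248.Ritt (A U N1 term T)

variable {d : ℕ}

/-- the box `{k : |k a| ≤ r a}` -/
noncomputable def boxSet (r : Fin d → ℕ) : Finset (Fin d → ℤ) :=
  Fintype.piFinset (fun a => Finset.Icc (-(r a : ℤ)) (r a))

lemma mem_boxSet {r : Fin d → ℕ} {k : Fin d → ℤ} : k ∈ boxSet r ↔ ∀ a, |k a| ≤ r a := by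
  unfold boxSet
  rw [Fintype.mem_piFinset]
  refine forall_congr' fun a => ?_
  rw [Finset.mem_Icc, abs_le]

/-- the number of the points of the box -/
noncomputable def vol (r : Fin d → ℕ) : ℝ := ∏ a, (2 * (r a : ℝ) + 1)

lemma vol_pos (r : Fin d → ℕ) : 0 < vol r := prod_pos fun a _ => by positivity

lemma card_boxSet (r : Fin d → ℕ) : ((boxSet r).card : ℝ) = vol r := by
  unfold boxSet vol
  rw [Fintype.card_piFinset]
  push_cast
  apply prod_congr rfl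
  intro a _
  rw [Int.card_Icc]
  have : ((r a : ℤ) + 1 - -(r a : ℤ)).toNat = 2 * r a + 1 := by omega
  rw [this]
  push_cast
  ring

lemma U_eq (r : ℕ) : U r = ((2 * r + 1 : ℝ))⁻¹ • ∑ k ∈ Finset.Icc (-(r : ℤ)) r,
    (AddMonoidAlgebra.single k 1 : A) := by
  unfold Pool.Agent.R248.Ritt.U Pool.Agent.R248.Ritt.T
  congr 1
  apply Finset.sum_nbij' (i := fun i : ℕ => (i : ℤ) - r) (j := fun k : ℤ => (k + r).toNat)
  · intro i hi
    rw [Finset.mem_range] at hi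
    rw [Finset.mem_Icc]
    omega
  · intro k hk
    rw [Finset.mem_Icc] at hk
    rw [Finset.mem_range]
    omega
  · intro i _
    simp
  · intro k hk
    rw [Finset.mem_Icc] at hk
    omega
  · intro i _
    rfl

lemma Bx_eq (r : Fin d → ℕ) : Bx r = (vol r)⁻¹ • ∑ k ∈ boxSet r,
    (AddMonoidAlgebra.single k 1 : AddMonoidAlgebra ℝ (Fin d → ℤ)) := by
  unfold Bx vol boxSet
  simp only [U_eq, map_smul, map_sum, iota_single]
  have h1 : ∏ a, ((2 * (r a : ℝ) + 1)⁻¹ • ∑ k ∈ Finset.Icc (-(r a : ℤ)) (r a),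
      (AddMonoidAlgebra.single (Pi.single a k) 1 : AddMonoidAlgebra ℝ (Fin d → ℤ))) =
      (∏ a, (2 * (r a : ℝ) + 1)⁻¹) • ∏ a, ∑ k ∈ Finset.Icc (-(r a : ℤ)) (r a),
      (AddMonoidAlgebra.single (Pi.single a k) 1 : AddMonoidAlgebra ℝ (Fin d → ℤ)) := by
    simp only [Algebra.smul_def]
    rw [prod_mul_distrib, ← map_prod]
  rw [h1, Finset.prod_inv_distrib, prod_univ_sum]
  congr 1
  apply sum_congr rfl
  intro k _
  have h2 : ∀ (s : Finset (Fin d)) (f : Fin d → Fin d → ℤ),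
      ∏ a ∈ s, (AddMonoidAlgebra.single (f a) 1 : AddMonoidAlgebra ℝ (Fin d → ℤ)) =
        AddMonoidAlgebra.single (∑ a ∈ s, f a) 1 := by
    intro s f
    induction s using Finset.induction_on with
    | empty => rw [prod_empty, sum_empty, AddMonoidAlgebra.one_def]
    | insert a s ha ih =>
      rw [prod_insert ha, sum_insert ha, ih, AddMonoidAlgebra.single_mul_single, mul_one]
  rw [h2, Finset.univ_sum_single]

section Banach

variable {𝔸 : Type*} [NormedRing 𝔸] [NormedAlgebra ℝ 𝔸]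

/-- the average over a box -/
noncomputable def avg (π : Multiplicative (Fin d → ℤ) →* 𝔸) (r : Fin d → ℕ) : 𝔸 :=
  (vol r)⁻¹ • ∑ k ∈ boxSet r, π (Multiplicative.ofAdd k)

lemma lift_Bx (π : Multiplicative (Fin d → ℤ) →* 𝔸) (r : Fin d → ℕ) :
    AddMonoidAlgebra.lift ℝ 𝔸 (Fin d → ℤ) π (Bx r) = avg π r := by
  rw [Bx_eq, map_smul, map_sum, avg]
  congr 1
  apply sum_congr rfl
  intro k _
  rw [AddMonoidAlgebra.lift_single, one_smul]

lemma norm_avg_le (π : Multiplicative (Fin d → ℤ) →* 𝔸) (K : ℝ) (hπ : ∀ k, ‖π k‖ ≤ K)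
    (r : Fin d → ℕ) : ‖avg π r‖ ≤ K := by
  rw [← lift_Bx]
  refine (norm_lift_le π K hπ _).trans ?_
  have hK : 0 ≤ K := (norm_nonneg _).trans (hπ 1)
  have := mul_le_mul_of_nonneg_left (NN_Bx_le r) hK
  linarith

/-- **The Ritt property of all orders for mixtures of averages over boxes.** -/
theorem banach [CompleteSpace 𝔸] (π : Multiplicative (Fin d → ℤ) →* 𝔸) (K : ℝ)
    (hπ : ∀ k, ‖π k‖ ≤ K) {ι : Type*} (r : ι → Fin d → ℕ) (c : ι → ℝ) (hc : ∀ i, 0 ≤ c i)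
    (hs : HasSum c 1) (hd : 1 ≤ d) :
    Summable (fun i => c i • avg π (r i)) ∧ ∀ n j : ℕ, 1 ≤ j →
      (n : ℝ) ^ j * ‖(1 - ∑' i, c i • avg π (r i)) ^ j * (∑' i, c i • avg π (r i)) ^ n‖ ≤
        K * (34 * d * j) ^ j := by
  have hK : 0 ≤ K := (norm_nonneg _).trans (hπ 1)
  have hsum : Summable (fun i => c i • avg π (r i)) := by
    apply Summable.of_norm_bounded (g := fun i => c i * K) (hs.summable.mul_right K)
    intro i
    rw [norm_smul, Real.norm_eq_abs, abs_of_nonneg (hc i)]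
    exact mul_le_mul_of_nonneg_left (norm_avg_le π K hπ _) (hc i)
  refine ⟨hsum, fun n j hj => ?_⟩
  set P := ∑' i, c i • avg π (r i) with hP
  have hlim : Tendsto (fun F : Finset ι => (n : ℝ) ^ j *
      ‖((∑ i ∈ F, c i) • (1 : 𝔸) - ∑ i ∈ F, c i • avg π (r i)) ^ j *
        (∑ i ∈ F, c i • avg π (r i)) ^ n‖) atTop
      (𝓝 ((n : ℝ) ^ j * ‖((1 : ℝ) • (1 : 𝔸) - P) ^ j * P ^ n‖)) := by
    have h1 : Tendsto (fun F : Finset ι => ∑ i ∈ F, c i) atTop (𝓝 1) := hs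
    have h2 : Tendsto (fun F : Finset ι => ∑ i ∈ F, c i • avg π (r i)) atTop (𝓝 P) :=
      hsum.hasSum
    exact tendsto_const_nhds.mul ((((h1.smul_const (1 : 𝔸)).sub h2).pow j).mul (h2.pow n)).norm
  rw [one_smul] at hlim
  apply le_of_tendsto' hlim
  intro F
  have h3 : (∑ i ∈ F, c i) ≤ 1 := sum_le_hasSum F (fun i _ => hc i) hs
  have h4 := mixture_order r c hc F h3 hd n j hj
  have h5 : ((∑ i ∈ F, c i) • (1 : 𝔸) - ∑ i ∈ F, c i • avg π (r i)) ^ j *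
        (∑ i ∈ F, c i • avg π (r i)) ^ n =
      AddMonoidAlgebra.lift ℝ 𝔸 (Fin d → ℤ) π
        (((∑ i ∈ F, c i) • (1 : AddMonoidAlgebra ℝ (Fin d → ℤ)) - ∑ i ∈ F, c i • Bx (r i)) ^ j *
          (∑ i ∈ F, c i • Bx (r i)) ^ n) := by
    rw [map_mul, map_pow, map_pow, map_sub, map_smul, map_one, map_sum]
    simp only [map_smul, lift_Bx]
  rw [h5]
  have h6 := norm_lift_le π K hπ
    (((∑ i ∈ F, c i) • (1 : AddMonoidAlgebra ℝ (Fin d → ℤ)) - ∑ i ∈ F, c i • Bx (r i)) ^ j *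
          (∑ i ∈ F, c i • Bx (r i)) ^ n)
  calc _ ≤ (n : ℝ) ^ j * (K * NN (((∑ i ∈ F, c i) • (1 : AddMonoidAlgebra ℝ (Fin d → ℤ)) -
        ∑ i ∈ F, c i • Bx (r i)) ^ j * (∑ i ∈ F, c i • Bx (r i)) ^ n)) :=
        mul_le_mul_of_nonneg_left h6 (by positivity)
    _ = K * ((n : ℝ) ^ j * NN (((∑ i ∈ F, c i) • (1 : AddMonoidAlgebra ℝ (Fin d → ℤ)) -
        ∑ i ∈ F, c i • Bx (r i)) ^ j * (∑ i ∈ F, c i • Bx (r i)) ^ n)) := by ring
    _ ≤ K * (34 * d * j) ^ j := mul_le_mul_of_nonneg_left h4 hK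

end Banach

end Pool.Agent.KS6_57.RT
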