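import Mathlib
import Pool.Agent.KS6_57.RT.Ban

/-! Probability measures on `ℤ^d` which are mixtures of uniform measures on boxes. -/

set_option autoImplicit false

noncomputable section

namespace Pool.Agent.KS6_57.RT

open Finset Filter Topology
open scoped ENNReal

variable {d : ℕ}

section convolution

variable {G : Type} [AddCommGroup G]

/-- convolution of functions on an abelian group -/
def conv (f g : G → ℝ) (x : G) : ℝ := ∑' y, f y * g (x - y)

open scoped Classical in
/-- convolution powers, the zeroth power is the unit mass at the origin -/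
def convPow (μ : G → ℝ) : ℕ → G → ℝ
  | 0 => fun x => if x = 0 then 1 else 0
  | n + 1 => conv μ (convPow μ n)

/-- convolution with `(δ - μ)^{*j}` -/
def diffPow (μ : G → ℝ) : ℕ → (G → ℝ) → G → ℝ
  | 0, f => f
  | j + 1, f => fun x => diffPow μ j f x - conv μ (diffPow μ j f) x

variable {G' : Type} [AddCommGroup G']

lemma conv_comp (e : G ≃+ G') (f g : G' → ℝ) : conv (f ∘ e) (g ∘ e) = conv f g ∘ e := by
  funext x
  unfold conv
  show ∑' y, f (e y) * g (e (x - y)) = ∑' y, f y * g (e x - y)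
  rw [← e.toEquiv.tsum_eq (fun y => f y * g (e x - y))]
  apply tsum_congr
  intro y
  rw [map_sub]
  rfl

lemma convPow_comp (e : G ≃+ G') (μ : G' → ℝ) (n : ℕ) :
    convPow (μ ∘ e) n = convPow μ n ∘ e := by
  induction n with
  | zero =>
    funext x
    simp only [convPow, Function.comp]
    by_cases h : x = 0
    · simp [h]
    · have h2 : e x ≠ 0 := by simpa using h
      simp [h, h2]
  | succ n ih =>
    have h1 : convPow (μ ∘ e) (n + 1) = conv (μ ∘ e) (convPow (μ ∘ e) n) := rfl
    rw [h1, ih, conv_comp]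
    rfl

lemma diffPow_comp (e : G ≃+ G') (μ f : G' → ℝ) (j : ℕ) :
    diffPow (μ ∘ e) j (f ∘ e) = diffPow μ j f ∘ e := by
  induction j with
  | zero => rfl
  | succ j ih =>
    have h1 : diffPow (μ ∘ e) (j + 1) (f ∘ e) = fun x => diffPow (μ ∘ e) j (f ∘ e) x -
      conv (μ ∘ e) (diffPow (μ ∘ e) j (f ∘ e)) x := rfl
    rw [h1, ih, conv_comp]
    rfl

end convolution

/-- `ℓ¹(ℤ^d)` -/
abbrev X (d : ℕ) : Type := lp (fun _ : Fin d → ℤ => ℝ) 1

lemma X_summable (f : X d) : Summable fun x => |f x| := by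
  have h := lp.memℓp f
  rw [memℓp_gen_iff (by norm_num)] at h
  simpa using h

lemma X_norm (f : X d) : ‖f‖ = ∑' x, |f x| := by
  have h := lp.norm_rpow_eq_tsum (p := 1) (by norm_num) f
  simpa using h

lemma memlp_shift (k : Fin d → ℤ) (f : X d) : Memℓp (fun x : Fin d → ℤ => f (x - k)) 1 := by
  have h := lp.memℓp f
  rw [memℓp_gen_iff (by norm_num)] at h ⊢
  exact h.comp_injective (sub_left_injective)

/-- the shift -/
def shiftFun (k : Fin d → ℤ) (f : X d) : X d := ⟨fun x => f (x - k), memlp_shift k f⟩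

lemma shiftFun_apply (k : Fin d → ℤ) (f : X d) (x : Fin d → ℤ) : shiftFun k f x = f (x - k) := rfl

lemma norm_shiftFun (k : Fin d → ℤ) (f : X d) : ‖shiftFun k f‖ = ‖f‖ := by
  rw [X_norm, X_norm]
  exact (Equiv.subRight k).tsum_eq (fun x => |f x|)

/-- the shift operator -/
def tau (k : Fin d → ℤ) : X d →L[ℝ] X d :=
  LinearMap.mkContinuous
    { toFun := shiftFun k
      map_add' := fun f g => by ext x; rfl
      map_smul' := fun c f => by ext x; rfl } 1
    (fun f => by
      rw [one_mul]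
      exact (norm_shiftFun k f).le)

lemma tau_apply (k : Fin d → ℤ) (f : X d) (x : Fin d → ℤ) : tau k f x = f (x - k) := rfl

/-- the representation by shifts -/
def rep (d : ℕ) : Multiplicative (Fin d → ℤ) →* (X d →L[ℝ] X d) where
  toFun k := tau k.toAdd
  map_one' := by
    ext f x
    rw [tau_apply]
    simp
  map_mul' k l := by
    ext f x
    show f (x - (k.toAdd + l.toAdd)) = f (x - k.toAdd - l.toAdd)
    rw [sub_add_eq_sub_sub]

lemma rep_apply (k : Fin d → ℤ) (f : X d) (x : Fin d → ℤ) :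
    rep d (Multiplicative.ofAdd k) f x = f (x - k) := rfl

lemma norm_rep (k : Multiplicative (Fin d → ℤ)) : ‖rep d k‖ ≤ 1 :=
  ContinuousLinearMap.opNorm_le_bound _ zero_le_one (fun f => by
    rw [one_mul]
    exact (norm_shiftFun _ f).le)

/-- the density of the uniform measure on the box -/
def unif (r : Fin d → ℕ) (x : Fin d → ℤ) : ℝ := by
  classical
  exact if x ∈ boxSet r then (vol r)⁻¹ else 0

lemma unif_nonneg (r : Fin d → ℕ) (x : Fin d → ℤ) : 0 ≤ unif r x := by
  unfold unif
  split_ifs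
  · exact (inv_pos.2 (vol_pos r)).le
  · exact le_rfl

lemma unif_le_one (r : Fin d → ℕ) (x : Fin d → ℤ) : unif r x ≤ 1 := by
  unfold unif
  split_ifs
  · apply inv_le_one_of_one_le₀
    unfold vol
    have h : ∀ a ∈ (univ : Finset (Fin d)), (1 : ℝ) ≤ 2 * (r a : ℝ) + 1 := fun a _ => by
      have : (0 : ℝ) ≤ r a := Nat.cast_nonneg _
      linarith
    calc (1 : ℝ) = ∏ _a : Fin d, 1 := by simp
      _ ≤ _ := prod_le_prod (fun _ _ => zero_le_one) h
  · exact zero_le_one

lemma csum {ι : Type*} (s : Finset ι) (f : ι → X d) (x : Fin d → ℤ) :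
    (∑ k ∈ s, f k : X d) x = ∑ k ∈ s, f k x := by
  rw [lp.coeFn_sum]
  simp

lemma avg_apply (r : Fin d → ℕ) (f : X d) (x : Fin d → ℤ) :
    avg (rep d) r f x = ∑' k, unif r k * f (x - k) := by
  classical
  have h1 : avg (rep d) r f = (vol r)⁻¹ • ∑ k ∈ boxSet r, rep d (Multiplicative.ofAdd k) f := by
    unfold avg
    simp only [smul_apply, _root_.sum_apply]
  rw [h1]
  have h2 : ((vol r)⁻¹ • ∑ k ∈ boxSet r, rep d (Multiplicative.ofAdd k) f : X d) x =
      (vol r)⁻¹ * (∑ k ∈ boxSet r, rep d (Multiplicative.ofAdd k) f : X d) x := rfl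
  rw [h2, csum, tsum_eq_sum (s := boxSet r)]
  · rw [Finset.mul_sum]
    apply sum_congr rfl
    intro k hk
    rw [rep_apply]
    unfold unif
    rw [if_pos hk]
  · intro k hk
    unfold unif
    rw [if_neg hk, zero_mul]

/-- evaluation at a point, as a functional on the operators -/
def evalAt (f : X d) (x : Fin d → ℤ) : (X d →L[ℝ] X d) →L[ℝ] ℝ :=
  LinearMap.mkContinuous
    { toFun := fun T => T f x
      map_add' := fun S T => rfl
      map_smul' := fun c T => rfl } ‖f‖
    (fun T => by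
      have h1 : ‖(T f) x‖ ≤ ‖T f‖ := lp.norm_apply_le_norm (by norm_num) (T f) x
      calc _ ≤ ‖T f‖ := h1
        _ ≤ ‖T‖ * ‖f‖ := T.le_opNorm f
        _ = ‖f‖ * ‖T‖ := mul_comm _ _)

lemma evalAt_apply (f : X d) (x : Fin d → ℤ) (T : X d →L[ℝ] X d) : evalAt f x T = T f x := rfl

section mixture

variable {ι : Type*} (r : ι → Fin d → ℕ) (c : ι → ℝ)

/-- the mixture of the uniform measures -/
def mix (x : Fin d → ℤ) : ℝ := ∑' i, c i * unif (r i) x

variable {r c}

lemma P_apply (hc : ∀ i, 0 ≤ c i) (hs : HasSum c 1)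
    (hsum : Summable (fun i => c i • avg (rep d) (r i))) (f : X d) (x : Fin d → ℤ) :
    (∑' i, c i • avg (rep d) (r i)) f x = conv (mix r c) (⇑f) x := by
  have h1 : (∑' i, c i • avg (rep d) (r i)) f x = ∑' i, c i * (avg (rep d) (r i) f x) := by
    rw [← evalAt_apply, ContinuousLinearMap.map_tsum _ hsum]
    apply tsum_congr
    intro i
    rw [map_smul, smul_eq_mul, evalAt_apply]
  have hsh : Summable (fun k => |f (x - k)|) := by
    have h := (Equiv.subLeft x).summable_iff.2 (X_summable f)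
    exact h
  have hts : ∑' k, |f (x - k)| = ‖f‖ := by
    rw [X_norm]
    exact (Equiv.subLeft x).tsum_eq (fun k => |f k|)
  have hsumk : ∀ i, Summable (fun k => |c i * (unif (r i) k * f (x - k))|) := by
    intro i
    apply Summable.of_nonneg_of_le (fun k => abs_nonneg _) (fun k => ?_) (hsh.mul_left (c i))
    rw [abs_mul, abs_mul, abs_of_nonneg (hc i), abs_of_nonneg (unif_nonneg _ _)]
    have h2 := mul_le_mul_of_nonneg_right (unif_le_one (r i) k) (abs_nonneg (f (x - k)))
    rw [one_mul] at h2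
    exact mul_le_mul_of_nonneg_left h2 (hc i)
  have hprod : Summable (Function.uncurry fun (i : ι) (k : Fin d → ℤ) =>
      c i * (unif (r i) k * f (x - k))) := by
    rw [← summable_abs_iff]
    rw [summable_prod_of_nonneg (fun _ => abs_nonneg _)]
    refine ⟨fun i => hsumk i, ?_⟩
    apply Summable.of_nonneg_of_le (fun i => tsum_nonneg fun k => abs_nonneg _) (fun i => ?_)
      (hs.summable.mul_right ‖f‖)
    rw [← hts, ← tsum_mul_left]
    apply (hsumk i).tsum_le_tsum _ (hsh.mul_left (c i))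
    intro k
    rw [abs_mul, abs_mul, abs_of_nonneg (hc i), abs_of_nonneg (unif_nonneg _ _)]
    have h2 := mul_le_mul_of_nonneg_right (unif_le_one (r i) k) (abs_nonneg (f (x - k)))
    rw [one_mul] at h2
    exact mul_le_mul_of_nonneg_left h2 (hc i)
  rw [h1]
  have h3 : ∀ i, c i * (avg (rep d) (r i) f x) = ∑' k, c i * (unif (r i) k * f (x - k)) := by
    intro i
    rw [avg_apply, tsum_mul_left]
  simp only [h3]
  refine (hprod.tsum_comm).symm.trans ?_
  unfold conv mix
  apply tsum_congr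
  intro k
  rw [← tsum_mul_right]
  apply tsum_congr
  intro i
  ring

/-- the unit mass -/
def dl (d : ℕ) : X d := lp.single 1 0 1

lemma dl_apply (x : Fin d → ℤ) : dl d x = if x = 0 then 1 else 0 := by
  unfold dl
  by_cases h : x = 0
  · subst h
    simp
  · simp [h]

lemma norm_dl : ‖dl d‖ = 1 := by
  rw [X_norm, tsum_eq_single 0]
  · rw [dl_apply]
    simp
  · intro x hx
    rw [dl_apply, if_neg hx, abs_zero]

lemma convPow_eq (hc : ∀ i, 0 ≤ c i) (hs : HasSum c 1)
    (hsum : Summable (fun i => c i • avg (rep d) (r i))) (n : ℕ) :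
    convPow (mix r c) n = ⇑(((∑' i, c i • avg (rep d) (r i)) ^ n) (dl d)) := by
  induction n with
  | zero =>
    funext x
    rw [pow_zero, one_apply_eq_self, dl_apply]
    unfold convPow
    congr
  | succ n ih =>
    funext x
    rw [pow_succ', mul_apply_eq_comp, P_apply hc hs hsum, ← ih]
    rfl

lemma diffPow_eq (hc : ∀ i, 0 ≤ c i) (hs : HasSum c 1)
    (hsum : Summable (fun i => c i • avg (rep d) (r i))) (n j : ℕ) :
    diffPow (mix r c) j (convPow (mix r c) n) =
      ⇑(((1 - ∑' i, c i • avg (rep d) (r i)) ^ j * (∑' i, c i • avg (rep d) (r i)) ^ n)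
        (dl d)) := by
  induction j with
  | zero =>
    rw [pow_zero, one_mul, ← convPow_eq hc hs hsum]
    rfl
  | succ j ih =>
    funext x
    rw [pow_succ', mul_assoc, mul_apply_eq_comp, sub_apply, one_apply_eq_self]
    have h1 : ∀ (g h : X d) (x : Fin d → ℤ), (g - h : X d) x = g x - h x := fun _ _ _ => rfl
    rw [h1, P_apply hc hs hsum, ← ih]
    rfl

/-- **All orders of the Ritt property for mixtures of uniform measures on boxes of `ℤ^d`.** -/
theorem ritt_boxes (hd : 1 ≤ d) (hc : ∀ i, 0 ≤ c i) (hs : HasSum c 1) (n j : ℕ) (hj : 1 ≤ j) :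
    Summable (fun x => |diffPow (mix r c) j (convPow (mix r c) n) x|) ∧
      (n : ℝ) ^ j * ∑' x, |diffPow (mix r c) j (convPow (mix r c) n) x| ≤ (34 * d * j) ^ j := by
  obtain ⟨hsum, hb⟩ := banach (rep d) 1 (norm_rep) r c hc hs hd
  rw [diffPow_eq hc hs hsum]
  refine ⟨X_summable _, ?_⟩
  rw [← X_norm]
  have h1 := hb n j hj
  have h2 := (((1 - ∑' i, c i • avg (rep d) (r i)) ^ j *
    (∑' i, c i • avg (rep d) (r i)) ^ n)).le_opNorm (dl d)
  rw [norm_dl, mul_one] at h2
  have h3 := mul_le_mul_of_nonneg_left h2 (by positivity : (0 : ℝ) ≤ (n : ℝ) ^ j)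
  linarith

end mixture

end Pool.Agent.KS6_57.RT
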