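import Mathlib
import Pool.Agent.KS6_57.RT.Meas

/-! Measures on `ℤ^d` which are non-increasing functions of the maximum norm. -/

set_option autoImplicit false

noncomputable section

namespace Pool.Agent.KS6_57.RT

open Finset Filter Topology

variable {d : ℕ}

/-- the maximum norm -/
def nrm (x : Fin d → ℤ) : ℕ := univ.sup (fun a => (x a).natAbs)

lemma nrm_le {x : Fin d → ℤ} {i : ℕ} : nrm x ≤ i ↔ x ∈ boxSet (fun _ : Fin d => i) := by
  rw [mem_boxSet, nrm, Finset.sup_le_iff]
  constructor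
  · intro h a
    have := h a (mem_univ a)
    rw [Int.abs_eq_natAbs]
    exact_mod_cast this
  · intro h a _
    have := h a
    rw [Int.abs_eq_natAbs] at this
    exact_mod_cast this

lemma nrm_const (hd : 1 ≤ d) (i : ℕ) : nrm (fun _ : Fin d => (i : ℤ)) = i := by
  apply le_antisymm
  · rw [nrm_le, mem_boxSet]
    intro a
    simp
  · unfold nrm
    have : ((i : ℤ)).natAbs = i := Int.natAbs_natCast i
    conv_lhs => rw [← this]
    exact Finset.le_sup (f := fun _ : Fin d => ((i : ℤ)).natAbs) (mem_univ (⟨0, hd⟩ : Fin d))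

lemma hasSum_tail {f : ℕ → ℝ} (hf : ∀ n, f (n + 1) ≤ f n) (h0 : Tendsto f atTop (𝓝 0)) (m : ℕ) :
    HasSum (fun i => if m ≤ i then f i - f (i + 1) else 0) (f m) := by
  rw [hasSum_iff_tendsto_nat_of_nonneg]
  · have h1 : ∀ n, m ≤ n → ∑ i ∈ range n, (if m ≤ i then f i - f (i + 1) else 0) = f m - f n := by
      intro n hn
      induction n, hn using Nat.le_induction with
      | base =>
        rw [sub_self]
        apply sum_eq_zero
        intro i hi
        rw [if_neg]
        rw [mem_range] at hi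
        omega
      | succ n hn ih =>
        rw [sum_range_succ, ih, if_pos hn]
        ring
    have h2 : Tendsto (fun n => f m - f n) atTop (𝓝 (f m - 0)) := tendsto_const_nhds.sub h0
    rw [sub_zero] at h2
    apply h2.congr'
    filter_upwards [eventually_ge_atTop m] with n hn
    exact (h1 n hn).symm
  · intro i
    split_ifs
    · linarith [hf i]
    · exact le_rfl

lemma sum_unif (r : Fin d → ℕ) : HasSum (unif r) 1 := by
  classical
  have h1 : ∀ x ∉ boxSet r, unif r x = 0 := fun x hx => by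
    unfold unif
    rw [if_neg hx]
  have h2 : HasSum (unif r) (∑ x ∈ boxSet r, unif r x) := hasSum_sum_of_ne_finset_zero h1
  have h3 : ∑ x ∈ boxSet r, unif r x = 1 := by
    have h4 : ∀ x ∈ boxSet r, unif r x = (vol r)⁻¹ := fun x hx => by
      unfold unif
      rw [if_pos hx]
    rw [sum_congr rfl h4, sum_const, nsmul_eq_mul, card_boxSet, mul_inv_cancel₀ (vol_pos r).ne']
  rwa [h3] at h2

/-- a non-increasing function of the maximum norm is a mixture of uniform measures on cubes -/
lemma cube_mix (hd : 1 ≤ d) {f : ℕ → ℝ} (hf : ∀ n, f (n + 1) ≤ f n)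
    (hs : HasSum (fun x : Fin d → ℤ => f (nrm x)) 1) :
    (∀ i, 0 ≤ vol (fun _ : Fin d => i) * (f i - f (i + 1))) ∧
    HasSum (fun i => vol (fun _ : Fin d => i) * (f i - f (i + 1))) 1 ∧
    mix (fun i (_ : Fin d) => i) (fun i => vol (fun _ : Fin d => i) * (f i - f (i + 1))) =
      fun x => f (nrm x) := by
  classical
  have hfs : Summable f := by
    have h1 := hs.summable.comp_injective (i := fun i : ℕ => fun _ : Fin d => (i : ℤ)) (by
      intro i j hij
      have := congrFun hij (⟨0, hd⟩ : Fin d)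
      simpa using this)
    refine h1.congr ?_
    intro i
    show f (nrm fun _ : Fin d => (i : ℤ)) = f i
    rw [nrm_const hd]
  have h0 : Tendsto f atTop (𝓝 0) := hfs.tendsto_atTop_zero
  have hc : ∀ i, 0 ≤ vol (fun _ : Fin d => i) * (f i - f (i + 1)) := fun i =>
    mul_nonneg (vol_pos _).le (by linarith [hf i])
  have hterm : ∀ i (x : Fin d → ℤ), vol (fun _ : Fin d => i) * (f i - f (i + 1)) *
      unif (fun _ => i) x = if nrm x ≤ i then f i - f (i + 1) else 0 := by
    intro i x
    unfold unif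
    by_cases h : nrm x ≤ i
    · rw [if_pos (nrm_le.1 h), if_pos h]
      field_simp [(vol_pos (fun _ : Fin d => i)).ne']
    · rw [if_neg (fun h2 => h (nrm_le.2 h2)), if_neg h, mul_zero]
  have hx : ∀ x : Fin d → ℤ, HasSum (fun i => vol (fun _ : Fin d => i) * (f i - f (i + 1)) *
      unif (fun _ => i) x) (f (nrm x)) := by
    intro x
    simp only [hterm]
    exact hasSum_tail hf h0 (nrm x)
  have hP : Summable (Function.uncurry fun (x : Fin d → ℤ) (i : ℕ) =>
      vol (fun _ : Fin d => i) * (f i - f (i + 1)) * unif (fun _ => i) x) := by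
    refine (summable_prod_of_nonneg (fun p => mul_nonneg (hc _) (unif_nonneg _ _))).2
      ⟨fun x => (hx x).summable, ?_⟩
    refine hs.summable.congr ?_
    intro x
    exact (hx x).tsum_eq.symm
  have hi : ∀ i : ℕ, ∑' x : Fin d → ℤ, vol (fun _ : Fin d => i) * (f i - f (i + 1)) *
      unif (fun _ => i) x = vol (fun _ : Fin d => i) * (f i - f (i + 1)) := by
    intro i
    rw [tsum_mul_left, (sum_unif (fun _ : Fin d => i)).tsum_eq, mul_one]
  refine ⟨hc, ?_, ?_⟩
  · have h1 := hP.prod_symm.prod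
    have h2 : Summable (fun i : ℕ => vol (fun _ : Fin d => i) * (f i - f (i + 1))) := by
      refine h1.congr ?_
      intro i
      exact (hi i)
    have h3 := hP.tsum_comm
    have h4 : ∑' (x : Fin d → ℤ) (i : ℕ), vol (fun _ : Fin d => i) * (f i - f (i + 1)) *
      unif (fun _ => i) x = 1 := by
      rw [← hs.tsum_eq]
      exact tsum_congr fun x => (hx x).tsum_eq
    have h5 : ∑' (i : ℕ) (x : Fin d → ℤ), vol (fun _ : Fin d => i) * (f i - f (i + 1)) *
      unif (fun _ => i) x = ∑' i : ℕ, vol (fun _ : Fin d => i) * (f i - f (i + 1)) :=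
      tsum_congr hi
    have h6 : ∑' i : ℕ, vol (fun _ : Fin d => i) * (f i - f (i + 1)) = 1 := by
      rw [← h5, ← h4]
      exact h3
    rw [← h6]
    exact h2.hasSum
  · funext x
    exact (hx x).tsum_eq

/-- All orders of the Ritt property for non-increasing functions of the maximum norm. -/
theorem ritt_cubes (hd : 1 ≤ d) {f : ℕ → ℝ} (hf : ∀ n, f (n + 1) ≤ f n)
    (hs : HasSum (fun x : Fin d → ℤ => f (nrm x)) 1) (n j : ℕ) (hj : 1 ≤ j) :
    Summable (fun x => |diffPow (fun x : Fin d → ℤ => f (nrm x)) j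
      (convPow (fun x : Fin d → ℤ => f (nrm x)) n) x|) ∧
    (n : ℝ) ^ j * ∑' x, |diffPow (fun x : Fin d → ℤ => f (nrm x)) j
      (convPow (fun x : Fin d → ℤ => f (nrm x)) n) x| ≤ (34 * d * j) ^ j := by
  obtain ⟨h1, h2, h3⟩ := cube_mix hd hf hs
  rw [← h3]
  exact ritt_boxes hd h1 h2 n j hj

/-- All orders of the Ritt property for symmetric measures on `ℤ` which are non-increasing on
`ℕ`. -/
theorem ritt_line (μ : ℤ → ℝ) (hsum : HasSum μ 1) (hsymm : ∀ k, μ (-k) = μ k)
    (hanti : ∀ n : ℕ, μ ((n : ℤ) + 1) ≤ μ (n : ℤ)) (n j : ℕ) (hj : 1 ≤ j) :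
    Summable (fun x => |diffPow μ j (convPow μ n) x|) ∧
    (n : ℝ) ^ j * ∑' x, |diffPow μ j (convPow μ n) x| ≤ (34 * j) ^ j := by
  let e : ℤ ≃+ (Fin 1 → ℤ) := (AddEquiv.funUnique (Fin 1) ℤ).symm
  let f : ℕ → ℝ := fun n => μ n
  let ν : (Fin 1 → ℤ) → ℝ := fun x => f (nrm x)
  have he : ∀ k : ℤ, nrm (e k) = k.natAbs := by
    intro k
    have : e k = fun _ => k := rfl
    rw [this]
    unfold nrm
    simp
  have hν : ν ∘ e = μ := by
    funext k
    show μ ((nrm (e k) : ℕ) : ℤ) = μ k
    rw [he]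
    rcases Int.natAbs_eq k with h | h
    · rw [← h]
    · conv_rhs => rw [h]
      rw [hsymm]
  have hs : HasSum ν 1 := by
    rw [← hν] at hsum
    exact (e.toEquiv.hasSum_iff).1 hsum
  have hanti' : ∀ n, f (n + 1) ≤ f n := by
    intro n
    have := hanti n
    show μ (((n + 1 : ℕ)) : ℤ) ≤ μ (n : ℤ)
    push_cast
    exact this
  obtain ⟨h1, h2⟩ := ritt_cubes (d := 1) le_rfl hanti' hs n j hj
  have h3 : diffPow μ j (convPow μ n) = diffPow ν j (convPow ν n) ∘ e := by
    rw [← diffPow_comp, ← convPow_comp, hν]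
  rw [h3]
  constructor
  · exact (e.toEquiv.summable_iff (f := fun x => |diffPow ν j (convPow ν n) x|)).2 h1
  · have h4 : ∑' x, |(diffPow ν j (convPow ν n) ∘ e) x| = ∑' x, |diffPow ν j (convPow ν n) x| :=
      e.toEquiv.tsum_eq (fun x => |diffPow ν j (convPow ν n) x|)
    rw [h4]
    simpa using h2

end Pool.Agent.KS6_57.RT
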